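import Pool.Agent.N352.PJ.Def

/-!
# Project PJ (helper352), part CQ (subtask 3665), by helper87: distinguished matrices over a finite
field with characteristic polynomial `x h(x)`
-/

set_option autoImplicit false

open Polynomial Matrix

namespace Pool.Agent.N87.PJ

open Pool.Agent.N352.PJ (Mt Jm chp form Dist S_ON S_CQ)

variable {g : ℕ} {F : Type} [Field F]

lemma J_mul_apply (A : Mt g F) (i j : Fin (2 * g + 1)) :
    (Jm g F * A) i j = A (Fin.rev i) j := by
  simp [Jm, Matrix.mul_apply]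

lemma J_sq : Jm g F * Jm g F = 1 := by
  ext i j
  rw [J_mul_apply]
  simp only [Jm, Matrix.of_apply, Fin.rev_rev, Matrix.one_apply]
  by_cases h : i = j
  · rw [if_pos h, if_pos h.symm]
  · rw [if_neg h, if_neg (fun h' => h h'.symm)]

lemma J_tr : (Jm g F)ᵀ = Jm g F := by
  ext i j
  simp only [Jm, Matrix.of_apply, Matrix.transpose_apply]
  by_cases h : j = Fin.rev i
  · rw [if_pos h, if_pos (by rw [h, Fin.rev_rev])]
  · rw [if_neg h, if_neg (fun h' => h (by rw [h', Fin.rev_rev]))]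

/-- the operator -/
def TT (B : Mt g F) : Mt g F := Jm g F * B

lemma sa {B : Mt g F} (hB : B.IsSymm) : (TT B)ᵀ * Jm g F = Jm g F * TT B := by
  unfold TT
  rw [Matrix.transpose_mul, hB.eq, J_tr, Matrix.mul_assoc, J_sq, Matrix.mul_one,
    ← Matrix.mul_assoc, J_sq, Matrix.one_mul]

lemma sa_pow {B : Mt g F} (hB : B.IsSymm) (m : ℕ) :
    (TT B ^ m)ᵀ * Jm g F = Jm g F * TT B ^ m := by
  induction m with
  | zero => simp
  | succ m ih =>
    rw [pow_succ', Matrix.transpose_mul, Matrix.mul_assoc, sa hB, ← Matrix.mul_assoc, ih,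
      Matrix.mul_assoc, ← pow_succ, ← pow_succ']

lemma sa_poly {B : Mt g F} (hB : B.IsSymm) (p : F[X]) :
    (aeval (TT B) p)ᵀ * Jm g F = Jm g F * aeval (TT B) p := by
  induction p using Polynomial.induction_on' with
  | add p q hp hq =>
    rw [map_add, Matrix.transpose_add, Matrix.add_mul, Matrix.mul_add, hp, hq]
  | monomial m c =>
    rw [aeval_monomial, ← Algebra.smul_def, Matrix.transpose_smul, Matrix.smul_mul, sa_pow hB,
      Matrix.mul_smul]

/-- the form -/
def Ph (ξ : Fin (2 * g + 1) → F) : Mt g F →ₗ[F] F where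
  toFun A := ξ ⬝ᵥ ((Jm g F * A) *ᵥ ξ)
  map_add' A A' := by rw [Matrix.mul_add, Matrix.add_mulVec, dotProduct_add]
  map_smul' c A := by
    rw [Matrix.mul_smul, Matrix.smul_mulVec, dotProduct_smul, RingHom.id_apply]

lemma form_eq (B : Mt g F) (m : ℕ) (ξ : Fin (2 * g + 1) → F) :
    form B m ξ = Ph ξ (TT B ^ m) := rfl

lemma gram {B : Mt g F} (hB : B.IsSymm) (p : F[X]) (A : Mt g F) (ξ : Fin (2 * g + 1) → F) :
    (aeval (TT B) p *ᵥ ξ) ⬝ᵥ (Jm g F *ᵥ (A *ᵥ ξ)) = Ph ξ (aeval (TT B) p * A) := by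
  rw [← Matrix.vecMul_transpose, ← Matrix.dotProduct_mulVec, Matrix.mulVec_mulVec,
    Matrix.mulVec_mulVec, sa_poly hB, Matrix.mul_assoc]
  rfl

/-- the distinguished vectors -/
def Xi (B : Mt g F) (ξ : Fin (2 * g + 1) → F) : Prop :=
  ∀ m ≤ 2 * g, form B m ξ = if m = 2 * g then 1 else 0

lemma Xi_ne {B : Mt g F} {ξ : Fin (2 * g + 1) → F} (h : Xi B ξ) : ξ ≠ 0 := by
  rintro rfl
  have := h (2 * g) le_rfl
  rw [if_pos rfl] at this
  unfold form at this
  rw [zero_dotProduct] at this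
  exact zero_ne_one this

lemma Xi_neg {B : Mt g F} {ξ : Fin (2 * g + 1) → F} (h : Xi B ξ) : Xi B (-ξ) := by
  intro m hm
  rw [← h m hm]
  unfold form
  rw [Matrix.mulVec_neg, neg_dotProduct_neg]

/-- an involution -/
lemma Xi_inv {B : Mt g F} (hB : B.IsSymm) {ξ : Fin (2 * g + 1) → F} (h : Xi B ξ) {e : F[X]}
    (he : aeval (TT B) (e * e) = 1) : Xi B (aeval (TT B) e *ᵥ ξ) := by
  intro m hm
  rw [← h m hm]
  have h1 : form B m (aeval (TT B) e *ᵥ ξ) =
      (aeval (TT B) e *ᵥ ξ) ⬝ᵥ (Jm g F *ᵥ ((TT B ^ m * aeval (TT B) e) *ᵥ ξ)) := by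
    unfold form
    rw [Matrix.mulVec_mulVec, Matrix.mulVec_mulVec, Matrix.mul_assoc]
    rfl
  rw [h1, gram hB, form_eq]
  congr 1
  have h2 : TT B ^ m = aeval (TT B) (X ^ m : F[X]) := by rw [map_pow, aeval_X]
  rw [h2, ← map_mul, ← map_mul]
  have h3 : e * (X ^ m * e) = X ^ m * (e * e) := by ring
  rw [h3, map_mul, he, mul_one]

variable {h : F[X]}

lemma ch (B : Mt g F) (hB : chp B = X * h) : aeval (TT B) (X * h) = 0 := by
  rw [← hB]
  exact Matrix.aeval_self_charpoly (TT B)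

/-- there are four distinguished vectors -/
lemma four {B : Mt g F} (hg : 1 ≤ g) (h2 : (2 : F) ≠ 0) (hB : B.IsSymm) (hc : chp B = X * h)
    (hm : h.Monic) (hi : Irreducible h) (hd : h.natDegree = 2 * g) {ξ : Fin (2 * g + 1) → F}
    (hξ : Xi B ξ) : ∃ η : Fin (2 * g + 1) → F, Xi B η ∧ η ≠ ξ ∧ η ≠ -ξ := by
  have hcop : IsCoprime (X : F[X]) h := by
    rw [Irreducible.coprime_iff_not_dvd Polynomial.irreducible_X]
    intro hdvd
    obtain ⟨c, hc'⟩ := hdvd
    have hX : (X : F[X]) ≠ 0 := X_ne_zero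
    rcases hi.isUnit_or_isUnit hc' with h' | h'
    · exact Polynomial.not_isUnit_X h'
    · have h3 := natDegree_eq_zero_of_isUnit h'
      have hc0 : c ≠ 0 := by
        rintro rfl
        rw [mul_zero] at hc'
        exact hi.ne_zero hc'
      rw [hc', natDegree_mul hX hc0, natDegree_X, h3] at hd
      omega
  obtain ⟨u, v, huv⟩ := hcop
  set T := TT B with hT
  have hf := ch B hc
  rw [← hT] at hf
  set e : F[X] := v * h - u * X with he
  have hee : aeval T (e * e) = 1 := by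
    have h3 : e * e = 1 - 4 * (u * v) * (X * h) := by
      have : e * e = (u * X + v * h) ^ 2 - 4 * (u * v) * (X * h) := by rw [he]; ring
      rw [this, huv]; ring
    rw [h3, map_sub, map_mul, hf, mul_zero, sub_zero, map_one]
  refine ⟨aeval T e *ᵥ ξ, Xi_inv hB hξ hee, ?_, ?_⟩
  · intro h3
    have e1 : e = 1 - 2 * (u * X) := by rw [he, ← huv]; ring
    have h4 : aeval T (u * X) *ᵥ ξ = 0 := by
      rw [e1, map_sub, map_one, Matrix.sub_mulVec, Matrix.one_mulVec, sub_eq_self, map_mul] at h3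
      have h5 : aeval T (2 : F[X]) = (2 : F) • (1 : Mt g F) := by
        rw [← C_ofNat, aeval_C, Algebra.algebraMap_eq_smul_one]
      rw [h5, Matrix.smul_mul, Matrix.one_mul, Matrix.smul_mulVec] at h3
      exact (smul_eq_zero.1 h3).resolve_left h2
    have h5 : aeval T (v * h) *ᵥ ξ = ξ := by
      have : v * h = 1 - u * X := by rw [← huv]; ring
      rw [this, map_sub, map_one, Matrix.sub_mulVec, Matrix.one_mulVec, h4, sub_zero]
    have h6 : T *ᵥ ξ = 0 := by
      have e3 : T = aeval T (X : F[X]) := (aeval_X T).symm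
      rw [← h5, Matrix.mulVec_mulVec]
      conv_lhs => rw [e3]
      have e4 : aeval (aeval T (X : F[X])) (v * h) = aeval T (v * h) := by rw [aeval_X]
      rw [e4, ← map_mul]
      have e5 : X * (v * h) = v * (X * h) := by ring
      rw [e5, map_mul, hf, mul_zero, Matrix.zero_mulVec]
    have h7 := hξ (2 * g) le_rfl
    rw [if_pos rfl] at h7
    unfold form at h7
    obtain ⟨k, hk⟩ : ∃ k, 2 * g = k + 1 := ⟨2 * g - 1, by omega⟩
    have h8 : (Jm g F * (Jm g F * B) ^ (2 * g)) *ᵥ ξ = 0 := by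
      have h9 : ∀ m, m = k + 1 → (Jm g F * (Jm g F * B) ^ m) = (Jm g F * T ^ k) * T := by
        intro m hm'
        rw [hm', Matrix.mul_assoc, ← pow_succ]
        rfl
      rw [h9 _ hk, ← Matrix.mulVec_mulVec, h6, Matrix.mulVec_zero]
    rw [h8, dotProduct_zero] at h7
    exact zero_ne_one h7
  · intro h3
    have e1 : e = 2 * (v * h) - 1 := by rw [he, ← huv]; ring
    have h4 : aeval T (v * h) *ᵥ ξ = 0 := by
      rw [e1, map_sub, map_one, Matrix.sub_mulVec, Matrix.one_mulVec, sub_eq_neg_self, map_mul] at h3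
      have h5 : aeval T (2 : F[X]) = (2 : F) • (1 : Mt g F) := by
        rw [← C_ofNat, aeval_C, Algebra.algebraMap_eq_smul_one]
      rw [h5, Matrix.smul_mul, Matrix.one_mul, Matrix.smul_mulVec] at h3
      exact (smul_eq_zero.1 h3).resolve_left h2
    have h5 : aeval T (u * X) *ᵥ ξ = ξ := by
      have : u * X = 1 - v * h := by rw [← huv]; ring
      rw [this, map_sub, map_one, Matrix.sub_mulVec, Matrix.one_mulVec, h4, sub_zero]
    have h6 : aeval T h *ᵥ ξ = 0 := by
      conv_lhs => rw [← h5]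
      rw [Matrix.mulVec_mulVec, ← map_mul]
      have e5 : h * (u * X) = u * (X * h) := by ring
      rw [e5, map_mul, hf, mul_zero, Matrix.zero_mulVec]
    have h7 : Ph ξ (aeval T h) = 0 := by
      show ξ ⬝ᵥ ((Jm g F * aeval T h) *ᵥ ξ) = 0
      rw [← Matrix.mulVec_mulVec, h6, Matrix.mulVec_zero, dotProduct_zero]
    rw [aeval_eq_sum_range, hd, map_sum, Finset.sum_range_succ] at h7
    have h8 : ∑ x ∈ Finset.range (2 * g), Ph ξ (h.coeff x • T ^ x) = 0 := by
      refine Finset.sum_eq_zero fun m hm' => ?_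
      have hm2 : m < 2 * g := Finset.mem_range.1 hm'
      rw [map_smul, hT, ← form_eq, hξ m hm2.le, if_neg hm2.ne, smul_zero]
    rw [h8, zero_add, map_smul, hT, ← form_eq, hξ _ le_rfl, if_pos rfl, ← hd, hm.coeff_natDegree,
      smul_eq_mul, mul_one] at h7
    exact one_ne_zero h7

/-! ### The matrix of a distinguished vector -/

/-- the matrix with columns `T ^ j ξ` -/
def MM (B : Mt g F) (ξ : Fin (2 * g + 1) → F) : Mt g F :=
  Matrix.of fun i j => ((TT B ^ (j : ℕ)) *ᵥ ξ) i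

lemma MM_gram {B : Mt g F} (hB : B.IsSymm) (ξ : Fin (2 * g + 1) → F) (i j : Fin (2 * g + 1)) :
    ((MM B ξ)ᵀ * Jm g F * MM B ξ) i j = form B (i + j) ξ := by
  rw [Matrix.mul_mul_apply]
  have h1 : (MM B ξ)ᵀ i = aeval (TT B) (X ^ (i : ℕ) : F[X]) *ᵥ ξ := by
    rw [map_pow, aeval_X]
    rfl
  have h2 : (MM B ξ)ᵀ j = (TT B ^ (j : ℕ)) *ᵥ ξ := rfl
  rw [h1, h2, gram hB, form_eq, map_pow, aeval_X, pow_add]

/-- all values of the form are determined -/
lemma form_det {B B' : Mt g F} {ξ ξ' : Fin (2 * g + 1) → F} (hc : chp B = X * h)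
    (hc' : chp B' = X * h) (hm : h.Monic) (hd : h.natDegree = 2 * g) (hξ : Xi B ξ)
    (hξ' : Xi B' ξ') (m : ℕ) : form B m ξ = form B' m ξ' := by
  have hmon : (X * h).Monic := monic_X.mul hm
  have hdeg : (X * h).natDegree = 2 * g + 1 := by
    rw [natDegree_mul X_ne_zero hm.ne_zero, natDegree_X, hd]
    omega
  have rec' : ∀ (B : Mt g F) (ξ : Fin (2 * g + 1) → F), chp B = X * h → ∀ m : ℕ,
      form B (m + (2 * g + 1)) ξ =
        -∑ k ∈ Finset.range (2 * g + 1), (X * h).coeff k * form B (m + k) ξ := by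
    intro B ξ hc m
    have h1 : Ph ξ (TT B ^ m * aeval (TT B) (X * h)) = 0 := by
      rw [ch B hc, mul_zero, map_zero]
    rw [aeval_eq_sum_range, hdeg, Finset.mul_sum, map_sum, Finset.sum_range_succ] at h1
    have h2 : (X * h).coeff (2 * g + 1) = 1 := by rw [← hdeg]; exact hmon.coeff_natDegree
    rw [h2, one_smul, ← pow_add, ← form_eq] at h1
    rw [eq_neg_iff_add_eq_zero, add_comm, ← h1]
    congr 1
    refine Finset.sum_congr rfl fun k _ => ?_
    rw [mul_smul_comm, map_smul, ← pow_add, ← form_eq, smul_eq_mul]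
  induction m using Nat.strong_induction_on with
  | _ m ih =>
    by_cases hm2 : m ≤ 2 * g
    · rw [hξ m hm2, hξ' m hm2]
    · obtain ⟨k, rfl⟩ : ∃ k, m = k + (2 * g + 1) := ⟨m - (2 * g + 1), by omega⟩
      rw [rec' B ξ hc, rec' B' ξ' hc']
      congr 1
      refine Finset.sum_congr rfl fun j hj => ?_
      rw [ih (k + j) (by have := Finset.mem_range.1 hj; omega)]

lemma MM_unit {B : Mt g F} (hB : B.IsSymm) {ξ : Fin (2 * g + 1) → F} (hξ : Xi B ξ) :
    IsUnit (MM B ξ).det := by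
  set H := (MM B ξ)ᵀ * Jm g F * MM B ξ with hH
  have h1 : (Jm g F * H).det = 1 := by
    have h2 : (Jm g F * H).BlockTriangular id := by
      intro i j hij
      have hij' : j < i := hij
      rw [J_mul_apply, hH, MM_gram hB, hξ _ (by
        rw [Fin.val_rev]
        have := i.2
        have h3 : (j : ℕ) < i := hij'
        omega)]
      rw [if_neg]
      rw [Fin.val_rev]
      have := i.2
      have h3 : (j : ℕ) < i := hij'
      omega
    rw [Matrix.det_of_upperTriangular h2]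
    refine Finset.prod_eq_one fun i _ => ?_
    have h4 : ((Fin.rev i : Fin (2 * g + 1)) : ℕ) + (i : ℕ) = 2 * g := by
      rw [Fin.val_rev]
      have := i.2
      omega
    rw [J_mul_apply, hH, MM_gram hB, h4, hξ _ le_rfl, if_pos rfl]
  rw [isUnit_iff_ne_zero]
  intro h0
  rw [hH, Matrix.det_mul, Matrix.det_mul, Matrix.det_mul, h0, mul_zero, mul_zero] at h1
  exact zero_ne_one h1

/-- the matrix determines `B` and `ξ` -/
lemma MM_inj {B B' : Mt g F} {ξ ξ' : Fin (2 * g + 1) → F} (hB : B.IsSymm) (hc : chp B = X * h)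
    (hc' : chp B' = X * h) (hm : h.Monic) (hd : h.natDegree = 2 * g) (hξ : Xi B ξ)
    (hM : MM B ξ = MM B' ξ') : B = B' ∧ ξ = ξ' := by
  have hmon : (X * h).Monic := monic_X.mul hm
  have hdeg : (X * h).natDegree = 2 * g + 1 := by
    rw [natDegree_mul X_ne_zero hm.ne_zero, natDegree_X, hd]
    omega
  have hcol : ∀ j : ℕ, j < 2 * g + 1 → (TT B ^ j) *ᵥ ξ = (TT B' ^ j) *ᵥ ξ' := by
    intro j hj
    funext i
    exact congrFun (congrFun hM i) ⟨j, hj⟩
  have hξξ : ξ = ξ' := by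
    have := hcol 0 (by omega)
    simpa using this
  have htop : ∀ (B : Mt g F) (ξ : Fin (2 * g + 1) → F), chp B = X * h →
      (TT B ^ (2 * g + 1)) *ᵥ ξ =
        -∑ k ∈ Finset.range (2 * g + 1), (X * h).coeff k • ((TT B ^ k) *ᵥ ξ) := by
    intro B ξ hc
    have h1 : aeval (TT B) (X * h) *ᵥ ξ = 0 := by rw [ch B hc, Matrix.zero_mulVec]
    rw [aeval_eq_sum_range, hdeg, Finset.sum_range_succ] at h1
    have h2 : (X * h).coeff (2 * g + 1) = 1 := by rw [← hdeg]; exact hmon.coeff_natDegree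
    rw [h2, one_smul, Matrix.add_mulVec, Matrix.sum_mulVec] at h1
    have h3 : ∑ k ∈ Finset.range (2 * g + 1), ((X * h).coeff k • TT B ^ k) *ᵥ ξ =
        ∑ k ∈ Finset.range (2 * g + 1), (X * h).coeff k • ((TT B ^ k) *ᵥ ξ) :=
      Finset.sum_congr rfl fun k _ => by rw [Matrix.smul_mulVec]
    rw [h3] at h1
    exact eq_neg_of_add_eq_zero_right h1
  have hcol' : ∀ j : ℕ, j < 2 * g + 1 → (TT B ^ (j + 1)) *ᵥ ξ = (TT B' ^ (j + 1)) *ᵥ ξ' := by
    intro j hj
    by_cases hj' : j + 1 < 2 * g + 1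
    · exact hcol _ hj'
    · have : j + 1 = 2 * g + 1 := by omega
      rw [this, htop B ξ hc, htop B' ξ' hc']
      congr 1
      refine Finset.sum_congr rfl fun k hk => ?_
      rw [hcol k (Finset.mem_range.1 hk)]
  have hTM : TT B * MM B ξ = TT B' * MM B ξ := by
    ext i j
    have h1 : (TT B * MM B ξ) i j = ((TT B ^ ((j : ℕ) + 1)) *ᵥ ξ) i := by
      rw [pow_succ', ← Matrix.mulVec_mulVec]
      rfl
    have h2 : (TT B' * MM B ξ) i j = ((TT B' ^ ((j : ℕ) + 1)) *ᵥ ξ') i := by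
      rw [hM, pow_succ', ← Matrix.mulVec_mulVec]
      rfl
    rw [h1, h2, hcol' j j.2]
  have hT : TT B = TT B' := by
    have hu := MM_unit hB hξ
    have h1 := congrArg (· * (MM B ξ)⁻¹) hTM
    simp only [Matrix.mul_assoc, Matrix.mul_nonsing_inv _ hu, Matrix.mul_one] at h1
    exact h1
  refine ⟨?_, hξξ⟩
  have h1 := congrArg (Jm g F * ·) hT
  simp only [TT] at h1
  rw [← Matrix.mul_assoc, ← Matrix.mul_assoc, J_sq, Matrix.one_mul, Matrix.one_mul] at h1
  exact h1

/-- **distinguished matrices with given characteristic polynomial `x h(x)`** -/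
theorem cq (hON : S_ON) : S_CQ := by
  intro g F _ _ hg h2 h hm hi hd
  classical
  let P : Type := {p : Mt g F × (Fin (2 * g + 1) → F) // p.1.IsSymm ∧ chp p.1 = X * h ∧ Xi p.1 p.2}
  let D : Type := {B : Mt g F // B.IsSymm ∧ chp B = X * h ∧ Dist B}
  let O : Type := {M : Mt g F // Mᵀ * Jm g F * M = Jm g F}
  haveI : Finite (Mt g F) := inferInstance
  have hPO : Nat.card P ≤ Nat.card O := by
    rcases isEmpty_or_nonempty P with hP | ⟨p₀⟩
    · rw [Nat.card_of_isEmpty]
      exact Nat.zero_le _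
    · obtain ⟨⟨B₀, ξ₀⟩, hB₀, hc₀, hξ₀⟩ := p₀
      simp only at hB₀ hc₀ hξ₀
      have hu₀ := MM_unit hB₀ hξ₀
      set M₀ := MM B₀ ξ₀ with hM₀
      have hH : ∀ p : P, (MM p.1.1 p.1.2)ᵀ * Jm g F * MM p.1.1 p.1.2 = M₀ᵀ * Jm g F * M₀ := by
        intro p
        ext i j
        rw [MM_gram p.2.1, hM₀, MM_gram hB₀]
        exact form_det p.2.2.1 hc₀ hm hd p.2.2.2 hξ₀ _
      let f : P → O := fun p => ⟨MM p.1.1 p.1.2 * M₀⁻¹, by
        rw [Matrix.transpose_mul]
        calc (M₀⁻¹)ᵀ * (MM p.1.1 p.1.2)ᵀ * Jm g F * (MM p.1.1 p.1.2 * M₀⁻¹) =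
            (M₀⁻¹)ᵀ * ((MM p.1.1 p.1.2)ᵀ * Jm g F * MM p.1.1 p.1.2) * M₀⁻¹ := by
              simp only [Matrix.mul_assoc]
          _ = (M₀⁻¹)ᵀ * (M₀ᵀ * Jm g F * M₀) * M₀⁻¹ := by rw [hH p]
          _ = ((M₀⁻¹)ᵀ * M₀ᵀ) * Jm g F * (M₀ * M₀⁻¹) := by simp only [Matrix.mul_assoc]
          _ = Jm g F := by
              rw [Matrix.mul_nonsing_inv _ hu₀, ← Matrix.transpose_mul,
                Matrix.mul_nonsing_inv _ hu₀, Matrix.transpose_one, Matrix.one_mul,
                Matrix.mul_one]⟩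
      refine Nat.card_le_card_of_injective f ?_
      intro p p' hpp
      have h3 : MM p.1.1 p.1.2 * M₀⁻¹ = MM p'.1.1 p'.1.2 * M₀⁻¹ := congrArg Subtype.val hpp
      have h4 : MM p.1.1 p.1.2 = MM p'.1.1 p'.1.2 := by
        have h5 := congrArg (· * M₀) h3
        simp only [Matrix.mul_assoc, Matrix.nonsing_inv_mul _ hu₀, Matrix.mul_one] at h5
        exact h5
      obtain ⟨h5, h6⟩ := MM_inj p.2.1 p.2.2.1 p'.2.2.1 hm hd p.2.2.2 h4
      exact Subtype.ext (Prod.ext h5 h6)
  have hDP : Nat.card (D × (Bool × Bool)) ≤ Nat.card P := by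
    have hch : ∀ B : D, ∃ ξ : Fin (2 * g + 1) → F, Xi B.1 ξ := fun B => B.2.2.2
    choose ξ hξ using hch
    have hch2 : ∀ B : D, ∃ η : Fin (2 * g + 1) → F, Xi B.1 η ∧ η ≠ ξ B ∧ η ≠ -ξ B := fun B =>
      four hg h2 B.2.1 B.2.2.1 hm hi hd (hξ B)
    choose η hη1 hη2 hη3 using hch2
    let v : D → Bool × Bool → (Fin (2 * g + 1) → F) := fun B st =>
      match st with
      | (false, false) => ξ B
      | (false, true) => η B
      | (true, false) => -ξ B
      | (true, true) => -η B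
    have hv : ∀ B st, Xi B.1 (v B st) := by
      rintro B ⟨_ | _, _ | _⟩
      · exact hξ B
      · exact hη1 B
      · exact Xi_neg (hξ B)
      · exact Xi_neg (hη1 B)
    have hvi : ∀ B, Function.Injective (v B) := by
      intro B
      have n1 : ξ B ≠ -ξ B := by
        intro h3
        have h4 : (2 : F) • ξ B = 0 := by
          rw [two_smul]
          nth_rewrite 2 [h3]
          exact add_neg_cancel _
        exact Xi_ne (hξ B) ((smul_eq_zero.1 h4).resolve_left h2)
      have n2 : η B ≠ -η B := by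
        intro h3
        have h4 : (2 : F) • η B = 0 := by
          rw [two_smul]
          nth_rewrite 2 [h3]
          exact add_neg_cancel _
        exact Xi_ne (hη1 B) ((smul_eq_zero.1 h4).resolve_left h2)
      have n3 := hη2 B
      have n4 := hη3 B
      have n5 : ξ B ≠ -η B := fun h3 => n4 (by rw [h3, neg_neg])
      have n6 : -ξ B ≠ -η B := fun h3 => n3 (neg_injective h3).symm
      rintro ⟨_ | _, _ | _⟩ ⟨_ | _, _ | _⟩ hst
      · rfl
      · exact absurd hst.symm n3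
      · exact absurd hst n1
      · exact absurd hst n5
      · exact absurd hst n3
      · rfl
      · exact absurd hst n4
      · exact absurd hst n2
      · exact absurd hst.symm n1
      · exact absurd hst.symm n4
      · rfl
      · exact absurd hst n6
      · exact absurd hst.symm n5
      · exact absurd hst.symm n2
      · exact absurd hst.symm n6
      · rfl
    let f : D × (Bool × Bool) → P := fun q =>
      ⟨(q.1.1, v q.1 q.2), q.1.2.1, q.1.2.2.1, hv q.1 q.2⟩
    refine Nat.card_le_card_of_injective f ?_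
    rintro ⟨B, st⟩ ⟨B', st'⟩ hq
    have h3 : (B.1, v B st) = (B'.1, v B' st') := congrArg Subtype.val hq
    have h4 : B = B' := Subtype.ext (congrArg Prod.fst h3)
    subst h4
    have h5 : v B st = v B st' := congrArg Prod.snd h3
    rw [hvi B h5]
  rw [Nat.card_prod, Nat.card_prod] at hDP
  have h3 : Nat.card Bool = 2 := by simp
  rw [h3] at hDP
  have h4 := hON g F h2
  have h5 : Nat.card D * (2 * 2) ≤ 2 * Nat.card F ^ (g * (2 * g + 1)) := hDP.trans (hPO.trans h4)
  show 2 * Nat.card D ≤ _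
  omega

end Pool.Agent.N87.PJ
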